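import Pool.Agent.helper35.MR.SpecB

set_option autoImplicit false

open Finset

namespace Pool.Agent.helper35.MR

open Pool.Agent.RRank

lemma FRM_dp {K : Type} {I : Finset (Fin 4)} {ψ : (Fin 4 → ℤ) → K} (h : Dp I ψ) (α : Fin 4) (hα : α ∉ I)
    (x y : Fin 4 → ℤ) (hxy : ∀ β, β ≠ α → x β = y β) : ψ x = ψ y :=
  h x y fun β hβ => hxy β fun hc => hα (hc ▸ hβ)

theorem FRM (hCP : CP_stmt) : FRM_stmt := by
  intro K _ r a b c d e f V sa sa' sb sb' sc sc' sd sd' A B C D E F t u v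
    hsa hsa' hsb hsb' hsc hsc' hsd hsd' hA hB hC hD hE hF hV
  have k2 : ∀ (n : ℕ) (P : Fin n → (Fin 4 → ℤ) → K) (α β : Fin 4), α ≠ β →
      (∀ i, OT (P i) ∧ Dp {α, β} (P i)) → ∃ P' : Fin n → Ordering → K, ∀ i x, P i x = P' i (cmp (x α) (x β)) := by
    intro n P α β hαβ hP
    choose P' hP' using fun i => (hCP K (P i) (hP i).1).2 α β hαβ (hP i).2
    exact ⟨P', hP'⟩
  obtain ⟨A', hA'⟩ := k2 a A 0 1 (by decide) hA
  obtain ⟨B', hB'⟩ := k2 b B 2 3 (by decide) hB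
  obtain ⟨C', hC'⟩ := k2 c C 0 2 (by decide) hC
  obtain ⟨D', hD'⟩ := k2 d D 1 3 (by decide) hD
  obtain ⟨E', hE'⟩ := k2 e E 0 3 (by decide) hE
  obtain ⟨F', hF'⟩ := k2 f F 1 2 (by decide) hF
  refine ⟨fun p q => ∑ i, ∑ j, t i j * (A' i p * B' j q), fun p q => ∑ i, ∑ j, u i j * (C' i p * D' j q),
    fun p q => ∑ i, ∑ j, v i j * (E' i p * F' j q), ?_⟩
  refine ⟨![fun x => ∑ n, sa n 0 * sa' n x, fun x => ∑ n, sb n 0 * sb' n x, fun x => ∑ n, sc n 0 * sc' n x,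
    fun x => ∑ n, sd n 0 * sd' n x], ?_, ?_, ?_⟩
  · have key : ∀ (P : Fin r → (Fin 4 → ℤ) → K) (w : Fin r → K), (∀ n, OT (P n)) →
        OT (fun x => ∑ n, w n * P n x) := by
      intro P w hP x y hxy
      exact sum_congr rfl fun n _ => by rw [hP n x y hxy]
    intro α
    fin_cases α
    · exact key sa' _ fun n => (hsa' n).1
    · exact key sb' _ fun n => (hsb' n).1
    · exact key sc' _ fun n => (hsc' n).1
    · exact key sd' _ fun n => (hsd' n).1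
  · have key : ∀ (P : Fin r → (Fin 4 → ℤ) → K) (w : Fin r → K) (I : Finset (Fin 4)) (α : Fin 4), α ∉ I →
        (∀ n, Dp I (P n)) → ∀ x y : Fin 4 → ℤ, (∀ β, β ≠ α → x β = y β) →
        ∑ n, w n * P n x = ∑ n, w n * P n y := by
      intro P w I α hα hP x y hxy
      exact sum_congr rfl fun n _ => by rw [FRM_dp (hP n) α hα x y hxy]
    intro α
    fin_cases α
    · exact key sa' _ {1, 2, 3} 0 (by decide) fun n => (hsa' n).2
    · exact key sb' _ {0, 2, 3} 1 (by decide) fun n => (hsb' n).2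
    · exact key sc' _ {0, 1, 3} 2 (by decide) fun n => (hsc' n).2
    · exact key sd' _ {0, 1, 2} 3 (by decide) fun n => (hsd' n).2
  · intro x
    have ea : ∀ n, sa n x = sa n 0 := fun n => (hCP K (sa n) (hsa n).1).1 0 (hsa n).2 x
    have eb : ∀ n, sb n x = sb n 0 := fun n => (hCP K (sb n) (hsb n).1).1 1 (hsb n).2 x
    have ec : ∀ n, sc n x = sc n 0 := fun n => (hCP K (sc n) (hsc n).1).1 2 (hsc n).2 x
    have ed : ∀ n, sd n x = sd n 0 := fun n => (hCP K (sd n) (hsd n).1).1 3 (hsd n).2 x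
    rw [Fin.sum_univ_four]
    show V x - (∑ i, ∑ j, t i j * (A' i (cmp (x 0) (x 1)) * B' j (cmp (x 2) (x 3)))) -
      (∑ i, ∑ j, u i j * (C' i (cmp (x 0) (x 2)) * D' j (cmp (x 1) (x 3)))) -
      (∑ i, ∑ j, v i j * (E' i (cmp (x 0) (x 3)) * F' j (cmp (x 1) (x 2)))) = _
    rw [hV x]
    simp only [ea, eb, ec, ed, hA', hB', hC', hD', hE', hF']
    show _ = (∑ n, sa n 0 * sa' n x) + (∑ n, sb n 0 * sb' n x) + (∑ n, sc n 0 * sc' n x) + ∑ n, sd n 0 * sd' n x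
    ring

end Pool.Agent.helper35.MR
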