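import Pool.Agent.helper35.MR.SpecB

set_option autoImplicit false

open Finset

namespace Pool.Agent.helper35.MR

open Pool.Agent.RRank

theorem CON (hSEL : SEL_stmt) (hEV : EV_stmt) (hHYV : HYV_stmt) : CON_stmt := by
  intro l N r K X Y Z W _ _ _ _ _ hl a b c d e f ha hb hc hd he hf T S t u v A B C D E F hS hT hRA hRB hhyp p q
  obtain ⟨sa, sa', sb, sb', sc, sc', sd, sd', hSS⟩ := hS
  obtain ⟨ξ, η, ζ, θ, h1, h2, h3, h4, hA, hB, hC, hD, hE, hF⟩ :=
    hSEL l N r K X Y Z W a b c d e f ha hb hc hd he hf A B C D E F sa sb sc sd hRA hRB p q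
  have hval : ∀ i j k m, ev4 T (ξ i) (η j) (ζ k) (θ m) = if i = j ∧ k = m then t p q else 0 := by
    intro i j k m
    obtain ⟨e1, e2, e3, e4, e5⟩ := hEV K X Y Z W (ξ i) (η j) (ζ k) (θ m)
    have hTf : T = fun x y z w => (fun x y z w => (fun x y z w => slSum sa sa' sb sb' sc sc' sd sd' x y z w +
        pr t A B x y z w) x y z w + pr u C D x z y w) x y z w + pr v E F x w y z := by
      funext x y z w
      rw [hT, hSS]
    rw [hTf, e5, e5, e5, e3, e4]
    have s1 : ev4 (fun x y z w => slSum sa sa' sb sb' sc sc' sd sd' x y z w) (ξ i) (η j) (ζ k) (θ m) = 0 :=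
      e1 r sa sa' sb sb' sc sc' sd sd' (fun n => h1 n i) (fun n => h2 n j) (fun n => h3 n k) (fun n => h4 n m)
    have s2 : ev4 (fun x y z w => pr t A B x y z w) (ξ i) (η j) (ζ k) (θ m) =
        ∑ i', ∑ j', t i' j' * (ev2 (A i') (ξ i) (η j) * ev2 (B j') (ζ k) (θ m)) := e2 a b t A B
    rw [s1, s2]
    simp only [hA, hB, hC, hE, zero_mul, mul_zero, sum_const_zero, add_zero, zero_add]
    by_cases hij : i = j
    · by_cases hkm : k = m
      · simp only [hij, hkm, and_true, if_true, and_self]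
        rw [sum_eq_single p, sum_eq_single q]
        · simp
        · intro q' _ hq'; simp [hq']
        · simp
        · intro p' _ hp'; simp [hp']
        · simp
      · simp [hkm]
    · simp [hij]
  have hh := hhyp ξ η ζ θ
  have h5 : hyp l (ev4 T) ξ η ζ θ = hyp l (fun i j k m : Fin l => if i = j ∧ k = m then t p q else 0) id id id id := by
    unfold hyp
    refine sum_congr rfl fun σ _ => sum_congr rfl fun τ _ => sum_congr rfl fun ρ _ => ?_
    congr 1
    refine prod_congr rfl fun i _ => ?_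
    rw [hval]
    rfl
  rw [h5, hHYV] at hh
  by_contra hne
  exact mul_ne_zero hl (pow_ne_zero l hne) hh

end Pool.Agent.helper35.MR
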