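import Pool.Agent.helper35.MR.SpecB

set_option autoImplicit false

open Finset

namespace Pool.Agent.helper35.MR

open Pool.Agent.RRank

lemma HML_ps {K X : Type} [Field K] [Fintype X] {l : ℕ} (g : Fin l → X → K) :
    ∏ i, ∑ x, g i x = ∑ x : Fin l → X, ∏ i, g i (x i) := by
  classical
  rw [Finset.prod_univ_sum]
  congr 1

lemma HML_re {K Y : Type} [Field K] [Fintype Y] {l : ℕ} (σ : Equiv.Perm (Fin l)) (G : (Fin l → Y) → K) :
    ∑ y, G y = ∑ y, G (y ∘ σ) :=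
  (Equiv.sum_comp (Equiv.arrowCongr σ.symm (Equiv.refl Y)) G).symm

lemma HML_prod {K X Y Z W : Type} [Field K] [Fintype X] [Fintype Y] [Fintype Z] [Fintype W]
    (T : X → Y → Z → W → K) (l : ℕ) (ξ : Fin l → X → K) (η : Fin l → Y → K) (ζ : Fin l → Z → K)
    (θ : Fin l → W → K) (σ τ ρ : Equiv.Perm (Fin l)) :
    ∏ i, ev4 T (ξ i) (η (σ i)) (ζ (τ i)) (θ (ρ i)) =
      ∑ x : Fin l → X, ∑ y : Fin l → Y, ∑ z : Fin l → Z, ∑ w : Fin l → W,
        ((∏ i, ξ i (x i)) * (∏ i, η i (y i)) * (∏ i, ζ i (z i)) * (∏ i, θ i (w i))) *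
          ∏ i, T (x i) (y (σ i)) (z (τ i)) (w (ρ i)) := by
  unfold ev4
  rw [HML_ps]
  refine sum_congr rfl fun x _ => ?_
  rw [HML_ps, HML_re σ]
  refine sum_congr rfl fun y _ => ?_
  rw [HML_ps, HML_re τ]
  refine sum_congr rfl fun z _ => ?_
  rw [HML_ps, HML_re ρ]
  refine sum_congr rfl fun w _ => ?_
  simp only [Function.comp_apply, prod_mul_distrib]
  rw [Equiv.prod_comp σ (fun i => η i (y i)), Equiv.prod_comp τ (fun i => ζ i (z i)),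
    Equiv.prod_comp ρ (fun i => θ i (w i))]
  ring

theorem HML : HML_stmt := by
  intro K X Y Z W _ _ _ _ _ T l hT ξ η ζ θ
  have h1 : hyp l (ev4 T) ξ η ζ θ = ∑ p : Equiv.Perm (Fin l) × Equiv.Perm (Fin l) × Equiv.Perm (Fin l),
      (((Equiv.Perm.sign p.1 * Equiv.Perm.sign p.2.1 * Equiv.Perm.sign p.2.2 : ℤˣ) : ℤ) : K) *
        ∑ q : (Fin l → X) × (Fin l → Y) × (Fin l → Z) × (Fin l → W),
          ((∏ i, ξ i (q.1 i)) * (∏ i, η i (q.2.1 i)) * (∏ i, ζ i (q.2.2.1 i)) * (∏ i, θ i (q.2.2.2 i))) *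
          ∏ i, T (q.1 i) (q.2.1 (p.1 i)) (q.2.2.1 (p.2.1 i)) (q.2.2.2 (p.2.2 i)) := by
    simp only [hyp, HML_prod, Fintype.sum_prod_type]
  have h2 : ∀ q : (Fin l → X) × (Fin l → Y) × (Fin l → Z) × (Fin l → W),
      ∑ p : Equiv.Perm (Fin l) × Equiv.Perm (Fin l) × Equiv.Perm (Fin l),
        (((Equiv.Perm.sign p.1 * Equiv.Perm.sign p.2.1 * Equiv.Perm.sign p.2.2 : ℤˣ) : ℤ) : K) *
          ∏ i, T (q.1 i) (q.2.1 (p.1 i)) (q.2.2.1 (p.2.1 i)) (q.2.2.2 (p.2.2 i)) = 0 := by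
    intro q
    have := hT q.1 q.2.1 q.2.2.1 q.2.2.2
    simpa only [hyp, Fintype.sum_prod_type] using this
  rw [h1]
  simp only [mul_sum]
  rw [sum_comm]
  refine sum_eq_zero fun q _ => ?_
  have h3 := h2 q
  have h4 := congrArg (fun t => ((∏ i, ξ i (q.1 i)) * (∏ i, η i (q.2.1 i)) * (∏ i, ζ i (q.2.2.1 i)) *
    (∏ i, θ i (q.2.2.2 i))) * t) h3
  simp only [mul_zero, mul_sum] at h4
  rw [← h4]
  refine sum_congr rfl fun p _ => ?_
  ring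

end Pool.Agent.helper35.MR
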